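import Mathlib

namespace Pool.Agent.Results.MP_2e66a2_lc.Yes

open MvPowerSeries

/-- rational series in commuting variables over the semiring of naturals -/
inductive Rational {σ : Type} : MvPowerSeries σ ℕ → Prop
  | fin (S) : {d | coeff d S ≠ 0}.Finite → Rational S
  | add (S T) : Rational S → Rational T → Rational (S + T)
  | mul (S T) : Rational S → Rational T → Rational (S * T)
  | star (S T) : Rational S → constantCoeff S = 0 → T = 1 + S * T → Rational T

/-- the characteristic series in commuting variables -/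
noncomputable def chi {σ : Type} [DecidableEq σ] (L : Set (List σ)) : MvPowerSeries σ ℕ :=
  fun d => Set.ncard {w | w ∈ L ∧ ∀ a, w.count a = d a}

abbrev PS := MvPowerSeries (Fin 3) ℕ

instance : IsRightCancelAdd PS := inferInstanceAs (IsRightCancelAdd ((Fin 3 →₀ ℕ) → ℕ))

theorem uniq {S G T T' : PS} (hS : constantCoeff S = 0) (h : T = G + S * T)
    (h' : T' = G + S * T') : T = T' := by
  let f := MvPowerSeries.map (σ := Fin 3) (Nat.castRingHom ℤ)
  have hf : Function.Injective f := fun a b h => MvPowerSeries.ext fun d => by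
    have := congrArg (coeff d) h
    simpa [f] using this
  have h1 := congrArg f h
  have h2 := congrArg f h'
  rw [map_add, map_mul] at h1 h2
  have h3 : (1 - f S) * (f T - f T') = 0 := by linear_combination h1 - h2
  have h4 : 1 - f S ≠ 0 := fun e => by
    have := congrArg constantCoeff e
    simp [f, hS] at this
  exact hf (sub_eq_zero.1 ((mul_eq_zero.1 h3).resolve_left h4))

theorem mul_ne {S T : PS} {d} :
    coeff d (S * T) ≠ 0 ↔ ∃ a b, a + b = d ∧ coeff a S ≠ 0 ∧ coeff b T ≠ 0 := by
  simp [coeff_mul, Finset.sum_eq_zero_iff]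

def Phi (S : PS) : Prop := ∃ C D, 0 < D ∧ ∀ d, coeff d S ≠ 0 → C * (1 + (d 0 + d 2)) < d 1 →
  ∀ n, coeff (d + Finsupp.single 1 (n * D)) S ≠ 0

theorem phi {S : PS} (h : Rational S) : Phi S := by
  induction h with
  | fin S h =>
    obtain ⟨C, hC⟩ := (h.image fun d => d 1).bddAbove
    refine ⟨C, 1, one_pos, fun d hd hc => ?_⟩
    have : d 1 ≤ C := hC ⟨d, hd, rfl⟩
    nlinarith
  | add S T _ _ h1 h2 =>
    obtain ⟨C, D, hD, h1⟩ := h1
    obtain ⟨C', D', hD', h2⟩ := h2
    refine ⟨C + C', D * D', by positivity, fun d hd hc n => ?_⟩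
    simp only [map_add, ne_eq, Nat.add_eq_zero_iff, not_and_or] at hd ⊢
    refine hd.imp (fun hd => ?_) fun hd => ?_
    · have := h1 d hd (by nlinarith) (n * D')
      rwa [show n * D' * D = n * (D * D') by ring] at this
    · have := h2 d hd (by nlinarith) (n * D)
      rwa [mul_assoc] at this
  | mul S T _ _ h1 h2 =>
    obtain ⟨C, D, hD, h1⟩ := h1
    obtain ⟨C', D', hD', h2⟩ := h2
    refine ⟨C + C', D * D', by positivity, fun d hd hc n => ?_⟩
    obtain ⟨a, b, rfl, ha, hb⟩ := mul_ne.1 hd
    simp only [Finsupp.add_apply] at hc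
    by_cases c : C * (1 + (a 0 + a 2)) < a 1
    · have := h1 a ha c (n * D')
      rw [show n * D' * D = n * (D * D') by ring] at this
      exact mul_ne.2 ⟨_, b, by abel, this, hb⟩
    · have := h2 b hb (by nlinarith [Nat.zero_le (C * (b 0 + b 2)), Nat.zero_le (C' * (a 0 + a 2))])
        (n * D)
      rw [mul_assoc] at this
      exact mul_ne.2 ⟨a, _, by abel, ha, this⟩
  | star S T _ h0 hT h1 =>
    obtain ⟨C, D, hD, h1⟩ := h1
    have st : ∀ a b, coeff a S ≠ 0 → coeff b T ≠ 0 → coeff (a + b) T ≠ 0 := by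
      intro a b ha hb
      have := mul_ne.2 ⟨a, b, rfl, ha, hb⟩
      rw [hT, map_add]
      omega
    have key : ∀ N (d : Fin 3 →₀ ℕ), d 0 + d 1 + d 2 < N → coeff d T ≠ 0 →
        d 1 ≤ 2 * C * (d 0 + d 2) ∨
          ∀ n, coeff (d + Finsupp.single 1 (n * (D * C.factorial))) T ≠ 0 := by
      intro N
      induction N with
      | zero => omega
      | succ N ih =>
        intro d hN hd
        by_cases e : d = 0
        · simp [e]
        rw [hT, map_add, coeff_one, if_neg e, zero_add] at hd
        obtain ⟨a, b, rfl, ha, hb⟩ := mul_ne.1 hd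
        have a0 : 0 < a 0 + a 1 + a 2 := by
          by_contra hc
          have : a = 0 := by
            ext i
            fin_cases i <;> simp <;> omega
          exact ha (by rw [this]; exact h0)
        simp only [Finsupp.add_apply] at hN ⊢
        rcases ih b (by omega) hb with h2 | h2
        · by_cases c : C * (1 + (a 0 + a 2)) < a 1
          · refine Or.inr fun n => ?_
            have := st _ b (h1 a ha c (n * C.factorial)) hb
            rwa [show n * C.factorial * D = n * (D * C.factorial) by ring, add_right_comm] at this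
          · by_cases c2 : a 0 + a 2 = 0
            · refine Or.inr fun n => ?_
              obtain ⟨q, hq⟩ : a 1 ∣ C.factorial :=
                Nat.dvd_factorial (by omega) (by rw [c2] at c; omega)
              have h3 : ∀ j : ℕ, coeff (a + b + j • a) T ≠ 0 := by
                intro j
                induction j with
                | zero => simpa using st a b ha hb
                | succ j ih => convert st a _ ha ih using 2; rw [succ_nsmul]; abel
              convert h3 (n * D * q) using 3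
              ext i
              fin_cases i <;> simp [hq]
              · omega
              · ring
              · omega
            · left
              nlinarith [Nat.pos_of_ne_zero c2]
        · exact Or.inr fun n => by rw [add_assoc]; exact st _ _ ha (h2 n)
    refine ⟨2 * C, D * C.factorial, by positivity, fun d hd hc => ?_⟩
    exact (key _ d (Nat.lt_succ_self _) hd).resolve_left (by nlinarith)

theorem rX (l : Fin 3) : Rational (X l : PS) :=
  .fin _ ((Set.finite_singleton (Finsupp.single l 1)).subset fun d hd => by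
    simpa [coeff_X] using hd)

theorem r1 : Rational (1 : PS) :=
  .fin _ ((Set.finite_singleton 0).subset fun d hd => by simpa [coeff_one] using hd)

def Wd (d : Fin 3 →₀ ℕ) : Set (List (Fin 3)) := {w | ∀ a, w.count a = d a}

theorem fin_Wd (d : Fin 3 →₀ ℕ) : (Wd d).Finite :=
  (List.finite_length_eq (Fin 3) (∑ a, d a)).subset fun w hw => by
    have := Multiset.sum_count_eq_card (s := Finset.univ) (m := (w : Multiset (Fin 3))) (by simp)
    simp only [Multiset.coe_count, Multiset.coe_card] at this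
    rw [Set.mem_ofPred_eq, ← this]
    exact Finset.sum_congr rfl fun a _ => hw a

noncomputable def W : PS := chi Set.univ

theorem coeff_W (d) : coeff d W = (Wd d).ncard := by simp [W, chi, Wd, coeff_apply]

theorem coeff_XW (l : Fin 3) (d) :
    coeff d (X l * W) = (List.cons l '' (List.cons l ⁻¹' Wd d)).ncard := by
  rw [X_def, coeff_monomial_mul, Set.ncard_image_of_injective _ List.cons_injective]
  split_ifs with c
  · rw [one_mul, coeff_W]
    congr 1
    ext w
    have := c l
    refine forall_congr' fun a => ?_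
    by_cases e : l = a
    · subst e
      simp at this ⊢
      omega
    · simp [e]
  · rw [eq_comm, Set.ncard_eq_zero ((fin_Wd d).preimage List.cons_injective.injOn),
      Set.eq_empty_iff_forall_notMem]
    intro w hw
    apply c
    have := hw l
    simp only [List.count_cons_self] at this
    exact Finsupp.single_le_iff.2 (by omega)

theorem W_eq : W = 1 + (X 0 + X 1 + X 2) * W := by
  ext d
  have f := fun l : Fin 3 => ((fin_Wd d).preimage (f := List.cons l)
    List.cons_injective.injOn).image (List.cons l)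
  have h0 : coeff d (1 : PS) = ({[]} ∩ Wd d).ncard := by
    rw [coeff_one]
    split_ifs with c
    · subst c
      rw [Set.inter_eq_left.2 (by simp [Wd]), Set.ncard_singleton]
    · rw [eq_comm, Set.ncard_eq_zero ((fin_Wd d).inter_of_right _), Set.eq_empty_iff_forall_notMem]
      rintro w ⟨rfl, hw⟩
      exact c (Finsupp.ext fun a => (hw a).symm)
  simp only [add_mul, map_add, coeff_XW, coeff_W, h0]
  rw [← Set.ncard_union_eq (by simp [Set.disjoint_left]) (f 0) (f 1),
    ← Set.ncard_union_eq (by simp [Set.disjoint_left]; aesop) ((f 0).union (f 1)) (f 2),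
    ← Set.ncard_union_eq (by simp [Set.disjoint_left]) ((fin_Wd d).inter_of_right _)
      (((f 0).union (f 1)).union (f 2))]
  congr 1
  ext w
  rcases w with _ | ⟨l, w⟩
  · simp
  · fin_cases l <;> simp

theorem rW : Rational W :=
  .star _ _ (.add _ _ (.add _ _ (rX 0) (rX 1)) (rX 2)) (by simp) W_eq

def mk3 (f : ℕ → ℕ → ℕ → ℕ) : PS := fun d => f (d 0) (d 1) (d 2)

theorem X0 (f) : X 0 * mk3 f = mk3 fun i k m => if i = 0 then 0 else f (i - 1) k m := by
  ext d
  rw [X_def, coeff_monomial_mul]
  simp [mk3, coeff_apply, Finsupp.single_le_iff, Nat.one_le_iff_ne_zero]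

theorem X1 (f) : X 1 * mk3 f = mk3 fun i k m => if k = 0 then 0 else f i (k - 1) m := by
  ext d
  rw [X_def, coeff_monomial_mul]
  simp [mk3, coeff_apply, Finsupp.single_le_iff, Nat.one_le_iff_ne_zero]

theorem X2 (f) (n : ℕ) :
    X 2 ^ n * mk3 f = mk3 fun i k m => if n ≤ m then f i k (m - n) else 0 := by
  ext d
  rw [X_pow_eq, coeff_monomial_mul]
  simp [mk3, coeff_apply, Finsupp.single_le_iff]

theorem mk3_add (f g) : mk3 f + mk3 g = mk3 fun i k m => f i k m + g i k m := rfl

def B (r s : ℕ) : PS := mk3 fun i k m => if m = 0 then r.multichoose i * s.multichoose k else 0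

theorem B00 : B 0 0 = 1 := by
  ext d
  rw [coeff_one]
  have : d = 0 ↔ d 0 = 0 ∧ d 1 = 0 ∧ d 2 = 0 := by simp [Finsupp.ext_iff, Fin.forall_fin_succ]
  simp only [this, B, mk3, coeff_apply]
  rcases d 0 with _ | a <;> rcases d 1 with _ | b <;> simp

theorem Ba (r s) : B (r + 1) s = B r s + X 0 * B (r + 1) s := by
  simp only [B, X0, mk3_add]
  congr 1
  funext i k m
  rcases i with _ | i <;> split_ifs <;> simp_all [Nat.multichoose_succ_succ, add_mul]

theorem Bc (r s) : B r (s + 1) = B r s + X 1 * B r (s + 1) := by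
  simp only [B, X1, mk3_add]
  congr 1
  funext i k m
  rcases k with _ | k <;> split_ifs <;> simp_all [Nat.multichoose_succ_succ, mul_add]

theorem sA : B 1 0 = 1 + X 0 * B 1 0 := by rw [← B00]; exact Ba 0 0
theorem sC : B 0 1 = 1 + X 1 * B 0 1 := by rw [← B00]; exact Bc 0 0

theorem rB : ∀ r s, Rational (B r s)
  | 0, 0 => B00 ▸ r1
  | 0, s + 1 => by
    rw [uniq (by simp) (Bc 0 s) (T' := B 0 1 * B 0 s) (by linear_combination B 0 s * sC)]
    exact .mul _ _ (.star _ _ (rX 1) (by simp) sC) (rB 0 s)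
  | r + 1, s => by
    rw [uniq (by simp) (Ba r s) (T' := B 1 0 * B r s) (by linear_combination B r s * sA)]
    exact .mul _ _ (.star _ _ (rX 0) (by simp) sA) (rB r s)

def Sb (F : PS) : Prop := ∃ Y, Rational Y ∧ F + Y = W

theorem sb0 : Sb 0 := ⟨W, rW, zero_add _⟩

theorem sb_two {G G' : PS} (h : Sb G) (h' : Sb G') : Sb (X 0 * G + X 2 * G') := by
  obtain ⟨Y, hY, e⟩ := h
  obtain ⟨Y', hY', e'⟩ := h'
  refine ⟨1 + X 0 * Y + X 2 * Y' + X 1 * W, .add _ _ (.add _ _ (.add _ _ r1 (.mul _ _ (rX 0) hY))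
    (.mul _ _ (rX 2) hY')) (.mul _ _ (rX 1) rW), ?_⟩
  linear_combination X 0 * e + X 2 * e' + W_eq.symm

theorem sb_a {G : PS} (h : Sb G) : Sb (X 0 * G) := by simpa using sb_two h sb0
theorem sb_m {G : PS} (h : Sb G) : Sb (X 2 * G) := by simpa using sb_two sb0 h

theorem sb_loop {l o : Fin 3} (hs : (X 0 + X 1 : PS) = X l + X o) {T : PS} (hT : T = 1 + X l * T)
    {G F ε ε' : PS} (hε : ε + ε' = 1) (hr : Rational ε') (h : Sb G)
    (hF : F = (ε + X 2 * G) + X l * F) : Sb F := by
  obtain ⟨Y, hY, e⟩ := h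
  refine ⟨T * (ε' + X 2 * Y + X o * W), .mul _ _ (.star _ _ (rX l) (by simp) hT)
    (.add _ _ (.add _ _ hr (.mul _ _ (rX 2) hY)) (.mul _ _ (rX o) rW)), ?_⟩
  refine uniq (S := X l) (G := 1 + X 2 * W + X o * W) (by simp) ?_ ?_
  · linear_combination hF + (ε' + X 2 * Y + X o * W) * hT + X 2 * e + hε
  · linear_combination W_eq + W * hs

theorem r0 : Rational (0 : PS) := .fin _ (by simp)

theorem sbA : ∀ r, Sb (X 2 ^ r * B (r + 1) 0)
  | 0 => sb_loop rfl sA (add_zero 1) r0 sb0 (by linear_combination sA)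
  | r + 1 => sb_loop rfl sA (zero_add 1) r1 (sbA r) (by linear_combination X 2 ^ (r + 1) * Ba (r + 1) 0)

theorem sbC : ∀ r, Sb (X 2 ^ r * B 0 (r + 1))
  | 0 => sb_loop (add_comm _ _) sC (add_zero 1) r0 sb0 (by linear_combination sC)
  | r + 1 => sb_loop (add_comm _ _) sC (zero_add 1) r1 (sbC r)
      (by linear_combination X 2 ^ (r + 1) * Bc 0 (r + 1))

theorem sbP : Sb (X 2 ^ 7 * (X 0 * B 5 1 + X 0 * B 5 1 + X 0 * B 5 1 + B 1 3)) := by
  have h1 : Sb (X 2 ^ 5 * B 5 1) := sb_loop (add_comm _ _) sC (zero_add 1) r1 (sbA 4)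
    (by linear_combination X 2 ^ 5 * Bc 5 0)
  have h2 : Sb (X 2 ^ 3 * B 1 3) := sb_loop rfl sA (zero_add 1) r1 (sbC 2)
    (by linear_combination X 2 ^ 3 * Ba 0 3)
  convert sb_two (sb_m (sb_m h1)) (sb_two (sb_m h1) (sb_two h1 (sb_m h2))) using 1
  ring

theorem m3 (i : ℕ) : 2 * Nat.multichoose 3 i = (i + 1) * (i + 2) := by
  induction i with
  | zero => simp
  | succ i ih => rw [Nat.multichoose_succ_succ, Nat.multichoose_two, mul_add, ih]; ring

theorem m4 (i : ℕ) : 6 * Nat.multichoose 4 i = (i + 1) * (i + 2) * (i + 3) := by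
  induction i with
  | zero => simp
  | succ i ih => rw [Nat.multichoose_succ_succ]; linear_combination ih + 3 * m3 (i + 1)

theorem m5 (i : ℕ) : 24 * Nat.multichoose 5 i = (i + 1) * (i + 2) * (i + 3) * (i + 4) := by
  induction i with
  | zero => simp
  | succ i ih => rw [Nat.multichoose_succ_succ]; linear_combination ih + 4 * m4 (i + 1)

def p (i k : ℕ) : ℕ := 3 * (if i = 0 then 0 else Nat.multichoose 5 (i - 1)) + Nat.multichoose 3 k
def q (i k : ℕ) : ℕ := Nat.multichoose 3 i * (k + 1)

theorem pq (i k : ℕ) : 2 * ((p i k : ℤ) - q i k) =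
    (Nat.multichoose 3 i - (k + 1)) * (Nat.multichoose 3 i - (k + 1) - 1) := by
  have h1 : (2 * Nat.multichoose 3 k : ℤ) = (k + 1) * (k + 2) := by exact_mod_cast m3 k
  have h2 : (2 * Nat.multichoose 3 i : ℤ) = (i + 1) * (i + 2) := by exact_mod_cast m3 i
  rcases i with _ | i
  · simp only [p, q, if_true, Nat.multichoose_zero_right]
    push_cast
    linear_combination h1
  · have h3 : (24 * Nat.multichoose 5 i : ℤ) = (i + 1) * (i + 2) * (i + 3) * (i + 4) := by
      exact_mod_cast m5 i
    simp only [p, q, Nat.add_sub_cancel, Nat.succ_ne_zero, if_false]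
    push_cast at h2 ⊢
    nlinarith [h1, h2, h3]

theorem q_le (i k : ℕ) : q i k ≤ p i k := by
  have := pq i k
  generalize ((Nat.multichoose 3 i : ℤ) - (k + 1)) = z at this
  have : 0 ≤ z * (z - 1) := by
    rcases le_or_gt z 0 with h | h <;> nlinarith
  omega

noncomputable def T : PS := mk3 fun i k m => if m = 7 then p i k - q i k else 0

theorem PQ : X 2 ^ 7 * (X 0 * B 5 1 + X 0 * B 5 1 + X 0 * B 5 1 + B 1 3) =
    X 2 ^ 7 * B 3 2 + T := by
  simp only [B, X0, mk3_add, X2, T]
  congr 1
  funext i k m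
  have := q_le i k
  simp only [p, q, Nat.multichoose_one, Nat.multichoose_two] at this ⊢
  split_ifs at this ⊢ <;> omega

theorem notT : ¬ Rational T := by
  intro h
  obtain ⟨C, D, hD, h⟩ := phi h
  obtain ⟨i, hi⟩ : ∃ i, i = 2 * C + 2 * D + 20 := ⟨_, rfl⟩
  have h1 := m3 i
  obtain ⟨k, hk⟩ : ∃ k, Nat.multichoose 3 i = k + D + 2 :=
    ⟨Nat.multichoose 3 i - (D + 2), by
      have : D + 2 ≤ Nat.multichoose 3 i := by nlinarith
      omega⟩
  have h2 := pq i k
  have h3 := pq i (k + D)
  rw [hk] at h1 h2 h3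
  push_cast at h2 h3
  refine h (Finsupp.equivFunOnFinite.symm ![i, k, 7]) ?_ ?_ 1 ?_
  · simp only [T, mk3, coeff_apply]
    simp
    have : (q i k : ℤ) < p i k := by nlinarith
    omega
  · simp
    nlinarith
  · simp only [T, mk3, coeff_apply]
    simp
    have : (p i (k + D) : ℤ) = q i (k + D) := by nlinarith
    omega

theorem result : ∃ (n : ℕ) (L : Set (List (Fin n))), Rational (chi L) ∧ ¬ Rational (chi Lᶜ) := by
  obtain ⟨Y, hY, e⟩ := sbP
  rw [PQ] at e
  have hS : Rational (Y + X 2 ^ 7 * B 3 2) := by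
    refine .add _ _ hY (.mul _ _ ?_ (rB 3 2))
    exact .fin _ ((Set.finite_singleton (Finsupp.single 2 7)).subset fun d hd => by
      simpa [coeff_X_pow] using hd)
  have e2 : ∀ d, coeff d (Y + X 2 ^ 7 * B 3 2) + coeff d T = (Wd d).ncard := fun d => by
    rw [← coeff_W, ← e, ← map_add]
    congr 1
    ring
  choose K hK hc using fun d => Set.exists_subset_card_eq (s := Wd d)
    (n := coeff d (Y + X 2 ^ 7 * B 3 2)) (by rw [← e2]; exact Nat.le_add_right _ _)
  have hL : ∀ d w, w ∈ Wd d → (w ∈ ⋃ d, K d ↔ w ∈ K d) := by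
    refine fun d w hw => ⟨fun h => ?_, fun h => Set.mem_iUnion.2 ⟨d, h⟩⟩
    obtain ⟨d', h⟩ := Set.mem_iUnion.1 h
    obtain rfl : d = d' := Finsupp.ext fun a => (hw a).symm.trans (hK d' h a)
    exact h
  refine ⟨3, ⋃ d, K d, ?_, ?_⟩
  · convert hS
    ext d
    rw [← hc]
    refine congrArg Set.ncard (Set.ext fun w => ⟨fun h => (hL d w h.2).1 h.1, fun h => ?_⟩)
    exact ⟨(hL d w (hK d h)).2 h, hK d h⟩
  · convert notT
    ext d
    have : coeff d (chi (⋃ d, K d)ᶜ) = (Wd d \ K d).ncard :=
      congrArg Set.ncard (Set.ext fun w => ⟨fun h => ⟨h.2, fun h' => h.1 ((hL d w h.2).2 h')⟩,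
        fun h => ⟨fun h' => h.2 ((hL d w h.1).1 h'), h.1⟩⟩)
    rw [this, Set.ncard_sdiff' (hK d) (fin_Wd d), hc, ← e2]
    omega

end Pool.Agent.Results.MP_2e66a2_lc.Yes
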